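import Pool.Agent.H31.Suit

set_option autoImplicit false

open Pool.Agent.H31

theorem Pool.Agent.Results.MP_41e59e_gt.Neg.result :
    ∃ (G : Type) (_ : AddCommGroup G) (_ : TopologicalSpace G) (_ : LinearOrder G),
      IsTopologicalAddGroup G ∧ OrderTopology G ∧ T35Space G ∧ TotallyDisconnectedSpace G ∧
      ¬ TopologicalSpace.SeparableSpace G ∧ ¬ IsGδ ({0} : Set G) ∧
      ∀ S : Set G, DiscreteTopology S → IsClosed (S ∪ {0}) →
        ¬ Dense (AddSubgroup.closure S : Set G) :=
  ⟨Suit.G, inferInstance, inferInstance, inferInstance, inferInstance, inferInstance,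
    inferInstance, inferInstance, Suit.not_sep, Suit.not_gd, fun _ => Suit.no_suit⟩
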